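import Pool.Agent.ISO.StmtsR

/-!
# Row OPA of block ISO/R (MP_b48657_ag)
-/

set_option autoImplicit false

namespace Pool.Agent.ISO.R.H45

open Finset Pool.Agent.Helper6_Mono Pool.Agent.Helper32_OMP Pool.Agent.ISO
open Pool.Agent.ISO.R

variable {σ : Type} [Fintype σ]

theorem op_zero (G : MvPolynomial σ ℂ) (W d : ℕ) : OpB W d G (fun _ => 0) := by
  refine ⟨fun _ => 0, fun w => ?_, fun n => ?_⟩
  · rw [Polynomial.natDegree_zero]; exact Nat.zero_le _
  · symm
    exact Finset.sum_eq_zero (fun w _ => by rw [Polynomial.eval_zero, zero_mul])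

theorem op_add (G : MvPolynomial σ ℂ) (W d : ℕ) (Ψ Ψ' : ℕ → MvPowerSeries σ ℂ)
    (h : OpB W d G Ψ) (h' : OpB W d G Ψ') : OpB W d G (fun n => Ψ n + Ψ' n) := by
  obtain ⟨c, hc, he⟩ := h
  obtain ⟨c', hc', he'⟩ := h'
  refine ⟨fun w => c w + c' w, fun w => ?_, fun n => ?_⟩
  · exact le_trans (Polynomial.natDegree_add_le _ _) (max_le (hc w) (hc' w))
  · dsimp only
    rw [he n, he' n, ← Finset.sum_add_distrib]
    exact Finset.sum_congr rfl (fun w _ => by rw [Polynomial.eval_add, add_mul])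

theorem op_sum (G : MvPolynomial σ ℂ) (W d : ℕ) {ι : Type} (S : Finset ι)
    (Ψ : ι → ℕ → MvPowerSeries σ ℂ) (h : ∀ i ∈ S, OpB W d G (Ψ i)) :
    OpB W d G (fun n => ∑ i ∈ S, Ψ i n) := by
  classical
  induction S using Finset.induction_on with
  | empty =>
    have := op_zero G W d
    simpa using this
  | insert a S ha ih =>
    have h1 := op_add G W d (Ψ a) (fun n => ∑ i ∈ S, Ψ i n) (h a (Finset.mem_insert_self a S))
      (ih (fun i hi => h i (Finset.mem_insert_of_mem hi)))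
    have e : (fun n => ∑ i ∈ insert a S, Ψ i n) = (fun n => Ψ a n + ∑ i ∈ S, Ψ i n) := by
      funext n
      rw [Finset.sum_insert ha]
    rw [e]
    exact h1

theorem op_mul (G : MvPolynomial σ ℂ) (W d e : ℕ) (Ψ : ℕ → MvPowerSeries σ ℂ)
    (a : Polynomial (MvPowerSeries σ ℂ)) (ha : a.natDegree ≤ e) (h : OpB W d G Ψ) :
    OpB W (d + e) G (fun n => a.eval (n : MvPowerSeries σ ℂ) * Ψ n) := by
  obtain ⟨c, hc, he⟩ := h
  refine ⟨fun w => a * c w, fun w => ?_, fun n => ?_⟩
  · refine le_trans Polynomial.natDegree_mul_le ?_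
    have := hc w
    omega
  · dsimp only
    rw [he n, Finset.mul_sum]
    exact Finset.sum_congr rfl (fun w _ => by rw [Polynomial.eval_mul, mul_assoc])

theorem op_mono (G : MvPolynomial σ ℂ) (W W' d d' : ℕ) (Ψ : ℕ → MvPowerSeries σ ℂ)
    (hW : W ≤ W') (hd : d ≤ d') (h : OpB W d G Ψ) : OpB W' d' G Ψ := by
  classical
  obtain ⟨c, hc, he⟩ := h
  refine ⟨fun w => if w ∈ Wd σ W then c w else 0, fun w => ?_, fun n => ?_⟩
  · dsimp only
    split_ifs
    · exact le_trans (hc w) hd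
    · rw [Polynomial.natDegree_zero]; exact Nat.zero_le _
  · rw [he n]
    have hsub : Wd σ W ⊆ Wd σ W' := fun w hw => mem_Wd.2 (le_trans (mem_Wd.1 hw) hW)
    rw [← Finset.sum_subset hsub]
    · exact Finset.sum_congr rfl (fun w hw => by dsimp only; rw [if_pos hw])
    · intro w _ hw
      dsimp only
      rw [if_neg hw, Polynomial.eval_zero, zero_mul]

theorem op_single (G : MvPolynomial σ ℂ) (W d : ℕ) (w : List σ) (hw : w.length ≤ W)
    (a : Polynomial (MvPowerSeries σ ℂ)) (ha : a.natDegree ≤ d) :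
    OpB W d G (fun n => a.eval (n : MvPowerSeries σ ℂ) *
      ((dWord w (G ^ (n + 1)) : MvPolynomial σ ℂ) : MvPowerSeries σ ℂ)) := by
  classical
  refine ⟨fun v => if v = w then a else 0, fun v => ?_, fun n => ?_⟩
  · dsimp only
    split_ifs
    · exact ha
    · rw [Polynomial.natDegree_zero]; exact Nat.zero_le _
  · rw [Finset.sum_eq_single w]
    · dsimp only
      rw [if_pos rfl]
    · intro v _ hv
      dsimp only
      rw [if_neg hv, Polynomial.eval_zero, zero_mul]
    · intro h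
      exact absurd (mem_Wd.2 hw) h

/-- the derivative of the coefficients -/
noncomputable def dco (i : σ) (a : Polynomial (MvPowerSeries σ ℂ)) :
    Polynomial (MvPowerSeries σ ℂ) :=
  ∑ m ∈ range (a.natDegree + 1), Polynomial.monomial m (MvPowerSeries.pderiv ℂ i (a.coeff m))

omit [Fintype σ] in
theorem dco_deg (i : σ) (a : Polynomial (MvPowerSeries σ ℂ)) :
    (dco i a).natDegree ≤ a.natDegree := by
  unfold dco
  refine Polynomial.natDegree_sum_le_of_forall_le _ _ (fun m hm => ?_)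
  refine le_trans (Polynomial.natDegree_monomial_le _) ?_
  have := Finset.mem_range.1 hm
  omega

omit [Fintype σ] in
theorem dco_eval (i : σ) (a : Polynomial (MvPowerSeries σ ℂ)) (n : ℕ) :
    MvPowerSeries.pderiv ℂ i (a.eval (n : MvPowerSeries σ ℂ)) =
      (dco i a).eval (n : MvPowerSeries σ ℂ) := by
  unfold dco
  rw [Polynomial.eval_eq_sum_range, map_sum, Polynomial.eval_finsetSum]
  refine Finset.sum_congr rfl (fun m _ => ?_)
  rw [Polynomial.eval_monomial, Derivation.leibniz]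
  have h0 : MvPowerSeries.pderiv ℂ i ((n : MvPowerSeries σ ℂ) ^ m) = 0 := by
    rw [← Nat.cast_pow]
    exact Derivation.map_natCast _ _
  rw [h0, smul_zero, zero_add, smul_eq_mul, mul_comm]

theorem op_der (G : MvPolynomial σ ℂ) (W d : ℕ) (Ψ : ℕ → MvPowerSeries σ ℂ) (i : σ)
    (h : OpB W d G Ψ) : OpB (W + 1) d G (fun n => MvPowerSeries.pderiv ℂ i (Ψ n)) := by
  obtain ⟨c, hc, he⟩ := h
  have e : (fun n => MvPowerSeries.pderiv ℂ i (Ψ n)) =
      (fun n : ℕ => ∑ w ∈ Wd σ W, ((c w).eval (n : MvPowerSeries σ ℂ) *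
        ((dWord (i :: w) (G ^ (n + 1)) : MvPolynomial σ ℂ) : MvPowerSeries σ ℂ) +
          (dco i (c w)).eval (n : MvPowerSeries σ ℂ) *
        ((dWord w (G ^ (n + 1)) : MvPolynomial σ ℂ) : MvPowerSeries σ ℂ))) := by
    funext n
    rw [he n, map_sum]
    refine Finset.sum_congr rfl (fun w _ => ?_)
    rw [Derivation.leibniz, MvPowerSeries.pderiv_coe, dco_eval, smul_eq_mul, smul_eq_mul]
    have : dWord (i :: w) (G ^ (n + 1)) = MvPolynomial.pderiv i (dWord w (G ^ (n + 1))) := rfl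
    rw [this]
    ring
  rw [e]
  refine op_sum G (W + 1) d (Wd σ W) _ (fun w hw => ?_)
  have hw' : w.length ≤ W := mem_Wd.1 hw
  refine op_add G (W + 1) d _ _ ?_ ?_
  · exact op_single G (W + 1) d (i :: w) (by rw [List.length_cons]; omega) (c w) (hc w)
  · exact op_single G (W + 1) d w (by omega) _ (le_trans (dco_deg i (c w)) (hc w))

theorem op_base (G : MvPolynomial σ ℂ) :
    OpB 0 0 G (fun n => (G : MvPowerSeries σ ℂ) ^ (n + 1)) := by
  have h := op_single G 0 0 [] (le_refl _) 1 (by rw [Polynomial.natDegree_one])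
  have e : (fun n : ℕ => (1 : Polynomial (MvPowerSeries σ ℂ)).eval (n : MvPowerSeries σ ℂ) *
      ((dWord [] (G ^ (n + 1)) : MvPolynomial σ ℂ) : MvPowerSeries σ ℂ)) =
      (fun n : ℕ => (G : MvPowerSeries σ ℂ) ^ (n + 1)) := by
    funext n
    have : dWord ([] : List σ) (G ^ (n + 1)) = G ^ (n + 1) := rfl
    rw [this, Polynomial.eval_one, one_mul, MvPolynomial.coe_pow]
  rw [e] at h
  exact h

theorem opa : OpaStmt := by
  intro σ _ G
  exact ⟨op_zero G, fun W d Ψ Ψ' h h' => op_add G W d Ψ Ψ' h h',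
    fun W d e Ψ a ha h => op_mul G W d e Ψ a ha h,
    fun W d Ψ i h => op_der G W d Ψ i h, op_base G,
    fun W W' d d' Ψ hW hd h => op_mono G W W' d d' Ψ hW hd h⟩

end Pool.Agent.ISO.R.H45
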