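import Pool.Agent.ISO.StmtsR

/-!
# Row RFN of block ISO/R (MP_b48657_ag)
-/

set_option autoImplicit false

namespace Pool.Agent.ISO.R.H45

open Finset Pool.Agent.Helper6_Mono Pool.Agent.Helper32_OMP Pool.Agent.ISO
open Pool.Agent.ISO.R

theorem lbs_mul {σ : Type} {z : σ → ℂ} {F : MvPolynomial σ ℂ} {b : Polynomial ℂ}
    (h : LBS z F b) (e : Polynomial ℂ) : LBS z F (b * e) := by
  obtain ⟨h, hz, P, hP⟩ := h
  refine ⟨h, hz, P.map (fun aw => ((e.map MvPolynomial.C) * aw.1, aw.2)), fun n => ?_⟩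
  have e1 : ((P.map (fun aw => ((e.map MvPolynomial.C) * aw.1, aw.2))).map
      fun aw => aw.1.eval (n : MvPolynomial σ ℂ) * dWord aw.2 (F ^ (n + 1))).sum =
      MvPolynomial.C (e.eval (n : ℂ)) *
        (P.map fun aw => aw.1.eval (n : MvPolynomial σ ℂ) * dWord aw.2 (F ^ (n + 1))).sum := by
    rw [List.map_map, ← List.sum_map_mul_left]
    congr 1
    refine List.map_congr_left (fun aw _ => ?_)
    simp only [Function.comp_apply]
    rw [Polynomial.eval_mul, Polynomial.eval_natCast_map, mul_assoc]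
  rw [e1, ← hP n, Polynomial.eval_mul, MvPolynomial.C_mul]
  ring

theorem bmf_ne {ι : Type} [Fintype ι] (a : ι → ℕ) (x : ℂ)
    (h : ∀ i, ∀ j : ℕ, 1 ≤ j → j ≤ a i → x ≠ -((j : ℂ) / (a i : ℂ))) :
    (bmf a).eval x ≠ 0 := by
  unfold bmf
  rw [Polynomial.eval_prod]
  refine Finset.prod_ne_zero_iff.2 (fun i _ => ?_)
  rw [Polynomial.eval_prod]
  refine Finset.prod_ne_zero_iff.2 (fun j hj => ?_)
  rw [Polynomial.eval_add, Polynomial.eval_X, Polynomial.eval_C]
  intro h0
  have h1 := h i (j + 1) (by omega) (by have := Finset.mem_range.1 hj; omega)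
  apply h1
  push_cast
  exact eq_neg_of_add_eq_zero_left h0

theorem rfn (h1 : TrpStmt) (h2 : SnpStmt) (h3 : RtmStmt) : RfnStmt := by
  intro σ ι _ _ hcard f a ha c hc hf T hT hT2 p g c1 hc1 hg hapx x hx
  by_cases hcase : ∃ i, ∃ j : ℕ, 1 ≤ j ∧ j ≤ a i ∧ x = -((j : ℂ) / (a i : ℂ))
  · obtain ⟨i, j, hj1, hj2, hxe⟩ := hcase
    rw [hxe]
    exact h3 σ ι hcard f a ha c hc hf T hT hT2 i j hj1 hj2
  · have hne : (bmf a).eval x ≠ 0 := by
      refine bmf_ne a x (fun i j hj1 hj2 he => hcase ⟨i, j, hj1, hj2, he⟩)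
    have hI : Ideal.span {b | LocalBS (MvPolynomial.C c * ∏ i, f i ^ a i) b} ≤
        RingHom.ker (Polynomial.evalRingHom x) := by
      rw [Ideal.span_le]
      intro b hb
      have hb0 : LBS 0 (MvPolynomial.C c1 * ∏ i, g i ^ a i) b :=
        h1 σ _ _ p b hapx (localBS_iff.1 hb p)
      have hb1 : LocalBS (MvPolynomial.C c1 * ∏ i, g i ^ a i) (b * bmf a) := by
        rw [localBS_iff]
        intro z
        by_cases hz : z = 0
        · rw [hz]
          exact lbs_mul hb0 (bmf a)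
        · rw [mul_comm b (bmf a)]
          exact lbs_mul (h2 σ ι g a c1 ha hc1 z (hg z hz)) b
      have hb2 : b * bmf a ∈
          Ideal.span {b | LocalBS (MvPolynomial.C c1 * ∏ i, g i ^ a i) b} :=
        Ideal.subset_span hb1
      have hb3 : bfun (MvPolynomial.C c1 * ∏ i, g i ^ a i) ∣ b * bmf a := by
        rw [bfun, normalize_dvd_iff]
        exact (Submodule.IsPrincipal.mem_iff_generator_dvd _).1 hb2
      obtain ⟨q, hq⟩ := hb3
      have hb4 : (b * bmf a).eval x = 0 := by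
        rw [hq, Polynomial.eval_mul, hx, zero_mul]
      rw [Polynomial.eval_mul] at hb4
      have hb5 : b.eval x = 0 := (mul_eq_zero.1 hb4).resolve_right hne
      exact hb5
    have h5 : Submodule.IsPrincipal.generator
        (Ideal.span {b | LocalBS (MvPolynomial.C c * ∏ i, f i ^ a i) b}) ∈
          RingHom.ker (Polynomial.evalRingHom x) :=
      hI (Submodule.IsPrincipal.generator_mem _)
    have h6 : bfun (MvPolynomial.C c * ∏ i, f i ^ a i) ∈
        RingHom.ker (Polynomial.evalRingHom x) := by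
      rw [bfun, normalize_apply]
      exact Ideal.mul_mem_right _ _ h5
    exact h6

end Pool.Agent.ISO.R.H45
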